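import Mathlib
import Pool.Agent.H285R2.Star4

/-!
# Starshapedness of compact connected sets from clear visibility of their LNC points

For every dimension `d`, a compact connected set `E ⊆ ℝ^d` such that any `d + 1` (not necessarily
distinct) locally non-convex points of `E` are clearly visible from a single point of `E` is
starshaped.  So the answer to Q1 is positive with `n(d) = d + 1`.
-/

set_option autoImplicit false

namespace Pool.Agent.Results.MP_ad2f8c_co.ClearVisibility

open Metric Set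

/-- `y ∈ E` sees `x ∈ E` in `E`: the closed segment from `x` to `y` lies in `E`. -/
def SeesIn {d : ℕ} (E : Set (EuclideanSpace ℝ (Fin d))) (y x : EuclideanSpace ℝ (Fin d)) : Prop :=
  y ∈ E ∧ x ∈ E ∧ segment ℝ x y ⊆ E

/-- `E` is starshaped: some point of `E` sees every point of `E`. -/
def Starshaped {d : ℕ} (E : Set (EuclideanSpace ℝ (Fin d))) : Prop :=
  ∃ y ∈ E, ∀ x ∈ E, SeesIn E y x

/-- `x` is a locally non-convex point of `E`: it is a boundary point of `E` and `B_r(x) ∩ E` fails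
to be convex for every `r > 0`. -/
def IsLNC {d : ℕ} (E : Set (EuclideanSpace ℝ (Fin d))) (x : EuclideanSpace ℝ (Fin d)) : Prop :=
  x ∈ frontier E ∧ ∀ r : ℝ, 0 < r → ¬ Convex ℝ (ball x r ∩ E)

/-- `x` is clearly visible from `y ∈ E`: for some `r > 0`, `y` sees every point of
`B_r(x) ∩ E`. -/
def ClearlyVisibleFrom {d : ℕ} (E : Set (EuclideanSpace ℝ (Fin d)))
    (y x : EuclideanSpace ℝ (Fin d)) : Prop :=
  y ∈ E ∧ ∃ r : ℝ, 0 < r ∧ ∀ z ∈ ball x r ∩ E, SeesIn E y z

/-- Property `𝒞_n`: for any (not necessarily distinct) LNC points `x_1, …, x_n` of `E` there is a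
single point of `E` from which all of them are clearly visible. -/
def PropC {d : ℕ} (n : ℕ) (E : Set (EuclideanSpace ℝ (Fin d))) : Prop :=
  ∀ x : Fin n → EuclideanSpace ℝ (Fin d), (∀ i, IsLNC E (x i)) →
    ∃ y ∈ E, ∀ i, ClearlyVisibleFrom E y (x i)

lemma sees_of_seesIn {d : ℕ} {E : Set (EuclideanSpace ℝ (Fin d))}
    {y x : EuclideanSpace ℝ (Fin d)} (h : SeesIn E y x) : Pool.Agent.H285R2.Star.Sees E y x := by
  intro t ht
  apply h.2.2
  rw [segment_symm, segment_eq_image']
  exact ⟨t, ht, rfl⟩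

lemma seesIn_of_sees {d : ℕ} {E : Set (EuclideanSpace ℝ (Fin d))}
    {y x : EuclideanSpace ℝ (Fin d)} (h : Pool.Agent.H285R2.Star.Sees E y x) : SeesIn E y x := by
  refine ⟨h.left, h.right, ?_⟩
  rw [segment_symm, segment_eq_image']
  rintro _ ⟨t, ht, rfl⟩
  exact h t ht

/-- **Main theorem.** In every dimension `d`, every compact connected set `E ⊆ ℝ^d` with property
`𝒞_{d+1}` is starshaped. -/
theorem result : ∀ (d : ℕ) (E : Set (EuclideanSpace ℝ (Fin d))),
    IsCompact E → IsConnected E → PropC (d + 1) E → Starshaped E := by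
  intro d E hE hconn hC
  obtain ⟨p, hp, h⟩ := Pool.Agent.H285R2.Star.starshaped_of_prop hE hconn (by
    rw [finrank_euclideanSpace_fin]
    intro x hx
    obtain ⟨y, hy, hyx⟩ := hC x (fun i => ⟨(hx i).1, fun r hr => (hx i).2 r hr⟩)
    refine ⟨y, hy, ?_⟩
    intro i
    obtain ⟨_, r, hr, hz⟩ := hyx i
    exact ⟨r, hr, fun z hzE hd => sees_of_seesIn (hz z ⟨hd, hzE⟩)⟩)
  exact ⟨p, hp, fun x hx => seesIn_of_sees (h x hx)⟩

end Pool.Agent.Results.MP_ad2f8c_co.ClearVisibility
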